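import Pool.Agent.W_4481e3_q87.GoR
import Pool.Agent.W_4481e3_tab.T1

/-!
Tree s20o1, data 1.
-/

namespace Pool.Agent.W_4481e3_rt.s20o1

open Pool.Agent.W_4481e3_q25.EvR

theorem k17 : ckO Pool.Agent.W_4481e3_tab.T1.tab 9888 10832 536870912 32768 46366 65536 3 2621440 524288 524288 524288 551215432 493837352 14344520 14344520 268435456 268435456 16777216 16777216 66192 66192 0x100001c01001c200001c01001c21 = true := by decide +kernel

theorem k21 : ckO Pool.Agent.W_4481e3_tab.T1.tab 9888 10832 536870912 32768 46366 65536 21 2621440 524288 524288 524288 508181872 536870912 28689040 57378079 268435456 268435456 16777216 16777216 66192 66192 0x100000c00001c200001c00001c01001c2100001c00001c01001c01001c12100001c00001c00001c06008d21201001c03001c903001c28375f7aef071203001c03001c903001c1203001c03001d903001d21212103001c04003f299928476f79dda7104003f2104003f2904003f284ab47a3167904003f2104003f205003f04003f304003f218547f7a8f9704003f212831657969f71201001c01001c03000c201001c03000c21201001c01001c03001d2848427e6a0703000c03000c03001d12847977ef20712103001c03001c103001c03001c04003f284e127b83b703001c04003f284f327bacf71203001c05003f04003f12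1203001c03001d103001d04003f203001d03001d104003f2121850fd7c51e705003f04003f104003f204003f04003f104003e21203000c03001c203001c03001d2103001d0400ec104003f05003f04003f28681e7c2b5712860c67c96970500ec0500ec105003f05003f20500ec05003f2121203001d0400ec0500ec1285c157e4f1703001d0400ec10400ec0500ec20500ec0500ec21285eda7ed0f710500ec0500ec20500ec0500ec2870b17e20d710500ec0700ed20500ec0500ec10700ec0700ed1287bfc7dc637120500ec0500ec205039c0500ec06039c1210500ec0500ec0500ec210700ec0700ed20700ed08071c2120500ec06039c206039c07039c287e9a7ee347107039c0801cd20801cd121882107e6407212105003f04003f05003f1b21b207003fb206003f06003f20700ec07003f2889767d8f271b21b20700ec08071c109006f288a067ddde708071c0801cd188a337e32b7b21b20801cdb21897337e97b7b21899c37cece7b21286a987d7a771212100001c00000c200001c07008d01001c2101001c27f21e7a935704003f99103001c204003f99121204003f04003f9927b8057a125704003f921204003f04003f0500ec205003f12127a5cf7a63e7101001c03001d101001c203001d03001c27c21b7b1e3703001c03001c103001c2103001c2127cf30797987100001c01001c00001c21204003f04003f05003f204003f1204003f04003f04003f12103001d03001d103001c203001d03001d103001c2103001d203001d04003f103001c204003f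03001d2103001c03001d12127a3f07b6947b04003fb04003f05003f12782917b5cf712bb04003f05003f206003f06003f07003f1212bb06003f0700ec209006f0700ed212bb08071c08071c12b0801cd2121212104003f05003f10400ec204003f05003f205003f0500ec210400ec0500ec12103001d03001d03000c2120700ec0500ec20700ed0500ec210500ec0500ec0500ec2120700ec0700ec0700ec210500ec0500ec1208071c0700ec20901cd0700ed07039c127763d7e81b710500ec0500ec206039c0500ec21210500ec0500ec205039c0500ec212780fe7e52f7103001d0500ec103001c27a3db7e332705006f03001d20500ec0500ec2103001c03001d127a07e7eb1071212797537d4977103000c01001c203000c01001c2101001c203001c01001c203000c03001d101001c217b7387ea64701001c212100001c01001c00001c21212 = true := by decide +kernel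

end Pool.Agent.W_4481e3_rt.s20o1
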